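import Mathlib
import Pool.Agent.Lib.MP_32dfd1_ag.Cyc.Theory

set_option autoImplicit false

/-!
# Varieties without odd cohomology and parity involutions (definitions)

`T : CycleData V` consists of the Chow rings with rational coefficients and the cohomology rings
`H^*(X(ℂ), ℚ)` of the smooth projective varieties over an algebraically closed field
`k ⊆ ℂ`, for instance `k = ℚ̄`; their textbook properties are `CycleData.Textbook`.
-/

namespace Pool.Agent.Lib.MP_32dfd1_ag.Par

open CategoryTheory MonoidalCategory CartesianMonoidalCategory Pool.Agent.Lib.MP_32dfd1_ag.Cyc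

universe u v w

variable {V : Type u} [Category.{v} V]

/-- `H^j(X) = 0` for all odd `j ≥ 2m - 1`.  With `p = dim X - m` this means that the homology
groups `H_j(X)` are zero for all odd `j ≤ 2p + 1`. -/
def OddVanish (T : CycleData.{u, v, w} V) (X : V) (m : ℤ) : Prop :=
  ∀ j : ℤ, Odd j → 2 * m - 1 ≤ j → T.H.gr X j = ⊥

/-- `X` has no odd cohomology. -/
def NoOdd (T : CycleData.{u, v, w} V) (X : V) : Prop :=
  ∀ j : ℤ, Odd j → T.H.gr X j = ⊥

/-- `i` is a parity involution of `X`: an involution which acts on `H^j(X)` as `(-1)^j`, for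
all `j`. -/
structure Parity (T : CycleData.{u, v, w} V) (X : V) (i : X ⟶ X) : Prop where
  sq : i ≫ i = 𝟙 X
  even : ∀ j : ℤ, Even j → ∀ x ∈ T.H.gr X j, T.H.pull i x = x
  odd : ∀ j : ℤ, Odd j → ∀ x ∈ T.H.gr X j, T.H.pull i x = -x

/-- Question Q1 for cycles whose codimension `m` is larger than half the dimension of `X`: if
`H^(2m-1)(X, ℚ) = 0` then every homologically trivial cycle class of codimension `m` on `X` is zero
in `CH^m(X) ⊗ ℚ`. -/
def Q1 (T : CycleData.{u, v, w} V) : Prop :=
  ∀ (X : V) (m : ℤ), 1 ≤ m → T.dim X < 2 * m → T.H.gr X (2 * m - 1) = ⊥ →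
    ∀ z, T.HomTrivial X m z → z = 0

/-- If `H^j(X) = 0` for all odd `j ≥ 2m - 1` then homologically trivial cycle classes of codimension
`m` on `X` are zero. -/
def Q1Odd (T : CycleData.{u, v, w} V) : Prop :=
  ∀ (X : V) (m : ℤ), OddVanish T X m → ∀ z, T.HomTrivial X m z → z = 0

/-- All homologically trivial cycle classes on varieties without odd cohomology are zero. -/
def EvenCase (T : CycleData.{u, v, w} V) : Prop :=
  ∀ X : V, NoOdd T X → ∀ (m : ℤ) (z : T.CH.R X), T.HomTrivial X m z → z = 0

/-- The same only for cycles of codimension `m` on varieties without odd cohomology whose dimension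
is `2m - 2`. -/
def EvenMiddle (T : CycleData.{u, v, w} V) : Prop :=
  ∀ X : V, NoOdd T X → ∀ (m : ℤ) (z : T.CH.R X), T.dim X = 2 * m - 2 → T.HomTrivial X m z → z = 0

/-- The finite group `G` acts on `X` (from the right) by the morphisms `a g`. -/
structure Action (X : V) (G : Type) [Group G] (a : G → (X ⟶ X)) : Prop where
  one : a 1 = 𝟙 X
  mul : ∀ g h, a (g * h) = a h ≫ a g

/-- The `G`-invariants in `H^j(X)` are zero for all odd `j ≥ 2m - 1`. -/
def InvVanish (T : CycleData.{u, v, w} V) (X : V) {G : Type} (a : G → (X ⟶ X)) (m : ℤ) : Prop :=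
  ∀ j : ℤ, Odd j → 2 * m - 1 ≤ j → ∀ x ∈ T.H.gr X j, (∀ g, T.H.pull (a g) x = x) → x = 0

/-- If a finite group `G` acts on `X` and `H^j(X)^G = 0` for all odd `j ≥ 2m - 1` then
`G`-invariant homologically trivial cycle classes of codimension `m` on `X` are zero. -/
def Equivariant (T : CycleData.{u, v, w} V) : Prop :=
  ∀ (X : V) (G : Type) [Group G] [Fintype G] (a : G → (X ⟶ X)), Action X G a → ∀ m : ℤ,
    InvVanish T X a m → ∀ z, T.HomTrivial X m z → (∀ g, T.CH.pull (a g) z = z) → z = 0

/-- Every parity involution acts as `-1` on all homologically trivial cycle classes. -/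
def ParityMinus (T : CycleData.{u, v, w} V) : Prop :=
  ∀ (X : V) (i : X ⟶ X), Parity T X i → ∀ (m : ℤ) (z : T.CH.R X), T.HomTrivial X m z →
    T.CH.pull' i z = -z

/-- Hard Lefschetz theorem, only the vanishing: `H^j(X) ⟶ H^(j+2)(X)`, the product with the class
of a hyperplane section, is surjective for `j ≥ dim X - 1`. -/
def HardLefschetz (T : CycleData.{u, v, w} V) : Prop :=
  ∀ (X : V) (j : ℤ), T.dim X - 1 ≤ j → T.H.gr X j = ⊥ → T.H.gr X (j + 2) = ⊥

/-- Theorems of Lefschetz and Bertini.  Let `z` be a homologically trivial `p`-cycle on `X`, and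
assume that `H_j(X) = 0` for all odd `j ≤ 2p + 1`.  In `X × ℙ^N`, `N` large, `z × pt` is
represented by a combination of smooth subvarieties, which lie on a smooth complete intersection
`Z ⊆ X × ℙ^N` of dimension `2p + 2`; one has `H_j(Z) = H_j(X × ℙ^N)` for `j ≤ 2p + 1`. -/
def LefschetzBertini (T : CycleData.{u, v, w} V) : Prop :=
  ∀ (X : V) (p : ℤ), 0 ≤ p → OddVanish T X (T.dim X - p) →
    ∀ z, T.HomTrivial X (T.dim X - p) z → ∃ (Z : V) (f : Z ⟶ X) (z' : T.CH.R Z),
      T.dim Z = 2 * p + 2 ∧ OddVanish T Z (T.dim Z - p) ∧ T.HomTrivial Z (T.dim Z - p) z' ∧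
        T.CH.push f z' = z

/-- The construction of Godeaux and Serre.  A finite group `G` acts on `X`; let `B` be a smooth
complete intersection of large dimension with a free action of `G` which is the restriction
of a linear action on a projective space, `W = X × B`, `Y = W / G`, `q : W ⟶ Y` the etale Galois
cover, `p : W ⟶ X` the projection, `s : X ⟶ W` given by a point of `B`.  Then `H_j(Y)` is the sum
of the `G`-invariants in `H_(j-2i)(X)`, `i ≥ 0`, for `j < dim B`; only the vanishing of `H_j(Y)`
for odd `j ≤ 2p + 1`, `p = dim X - m`, when all these vanish is recorded here. -/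
def GodeauxSerre (T : CycleData.{u, v, w} V) : Prop :=
  ∀ (X : V) (G : Type) [Group G] [Fintype G] (a : G → (X ⟶ X)), Action X G a → ∀ m : ℤ,
    InvVanish T X a m → ∃ C : T.GaloisCover X G a, OddVanish T C.Y (m + (T.dim C.W - T.dim X))

variable [CartesianMonoidalCategory V]

/-- `X` is of parity type: the diagonal of `X` is a sum of compositions `b i ∘ a i` of
correspondences `a i` from `X` to varieties `P i` with a parity involution, of degree `n i`, and
`b i` from `P i` to `X`, of degree `- n i`. In other words the Chow motive of `X` is a direct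
summand of a sum of Tate twists of motives of varieties with parity involutions. -/
def ParityType (T : CycleData.{u, v, w} V) (X : V) : Prop :=
  ∃ (I : Type) (_ : Fintype I) (P : I → V) (ι : ∀ i, P i ⟶ P i) (n : I → ℤ)
    (a : ∀ i, T.CH.R (X ⊗ P i)) (b : ∀ i, T.CH.R (P i ⊗ X)),
    (∀ i, Parity T (P i) (ι i)) ∧
    (∀ i, a i ∈ T.CH.gr (X ⊗ P i) (T.dim X + n i)) ∧
    (∀ i, b i ∈ T.CH.gr (P i ⊗ X) (T.dim (P i) - n i)) ∧
    ∑ i, T.CH.comp (a i) (b i) = T.CH.diag X

/-- Homologically trivial correspondences between varieties of parity type act as zero on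
homologically trivial cycle classes. -/
def CorrespondencesVanish (T : CycleData.{u, v, w} V) : Prop :=
  ∀ X Y : V, ParityType T X → ParityType T Y → ∀ (r m : ℤ) (c : T.CH.R (X ⊗ Y)) (z : T.CH.R X),
    T.HomTrivial (X ⊗ Y) r c → T.HomTrivial X m z → T.CH.act c z = 0

/-- Products of homologically trivial cycle classes on varieties of parity type are zero. -/
def ProductsVanish (T : CycleData.{u, v, w} V) : Prop :=
  ∀ X : V, ParityType T X → ∀ (a b : ℤ) (z z' : T.CH.R X), T.HomTrivial X a z →
    T.HomTrivial X b z' → z * z' = 0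

end Pool.Agent.Lib.MP_32dfd1_ag.Par
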