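import Mathlib
import Pool.Agent.Lib.MP_32dfd1_ag.Cyc.Corr
import Pool.Agent.Lib.MP_32dfd1_ag.Cyc.One
import Pool.Agent.Lib.MP_32dfd1_ag.Par.Defs

set_option autoImplicit false
set_option linter.unusedSectionVars false

/-!
# Varieties without odd cohomology and parity involutions (proofs)
-/

namespace Pool.Agent.Lib.MP_32dfd1_ag.Par

open CategoryTheory MonoidalCategory CartesianMonoidalCategory Pool.Agent.Lib.MP_32dfd1_ag.Cyc

universe u v w

variable {V : Type u} [Category.{v} V] [CartesianMonoidalCategory V]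
  {T : CycleData.{u, v, w} V} [T.Textbook]

theorem odd_step (hH : HardLefschetz T) {X : V} {j : ℤ} (hj : T.dim X - 1 ≤ j)
    (h : T.H.gr X j = ⊥) (k : ℕ) : T.H.gr X (j + 2 * k) = ⊥ := by
  induction k with
  | zero => simpa using h
  | succ k ih =>
    have := hH X (j + 2 * k) (by omega) ih
    rw [show j + 2 * ((k + 1 : ℕ) : ℤ) = j + 2 * k + 2 by push_cast; ring]
    exact this

theorem q1_of_q1Odd (hH : HardLefschetz T) (h : Q1Odd T) : Q1 T := by
  intro X m _ hd hm z hz
  refine h X m ?_ z hz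
  intro j hj hjm
  obtain ⟨c, hc⟩ := hj
  obtain ⟨k, hk⟩ : ∃ k : ℕ, (k : ℤ) = c - m + 1 := ⟨(c - m + 1).toNat, by omega⟩
  have := odd_step hH (j := 2 * m - 1) (by omega) hm k
  rwa [show 2 * m - 1 + 2 * (k : ℤ) = j by omega] at this

theorem evenCase_of_q1Odd (h : Q1Odd T) : EvenCase T :=
  fun X hX m z hz => h X m (fun j hj _ => hX j hj) z hz

theorem evenMiddle_of_q1 (h : Q1 T) : EvenMiddle T := by
  intro X hX m z hd hz
  by_cases hm : 1 ≤ m
  · exact h X m hm (by omega) (hX _ ⟨m - 1, by ring⟩) z hz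
  · exact T.homTrivial_eq_zero (by omega) hz

theorem evenMiddle_of_evenCase (h : EvenCase T) : EvenMiddle T :=
  fun X hX m z _ hz => h X hX m z hz

theorem q1Odd_of_evenMiddle (hL : LefschetzBertini T) (h : EvenMiddle T) : Q1Odd T := by
  intro X m hX z hz
  by_cases hm : T.dim X < m
  · exact T.homTrivial_eq_zero' hm hz
  · push Not at hm
    obtain ⟨Z, f, z', hd, hZ, hz', hf⟩ := hL X (T.dim X - m) (by omega)
      (by rwa [sub_sub_cancel]) z (T.homTrivial_congr hz (by ring))
    have hno : NoOdd T Z := by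
      intro j hj
      by_cases h1 : 2 * (T.dim Z - (T.dim X - m)) - 1 ≤ j
      · exact hZ j hj h1
      · obtain ⟨c, hc⟩ := hj
        have h2 := hZ (2 * T.dim Z - j) ⟨T.dim Z - c - 1, by omega⟩ (by omega)
        have h3 := T.duality Z _ h2
        rwa [sub_sub_cancel] at h3
    rw [← hf, h Z hno (T.dim Z - (T.dim X - m)) z' (by omega) hz', map_zero]

/-- pulling back along the action is pushing forward along the inverse -/
theorem push_inv {X : V} {G : Type} [Group G] {a : G → (X ⟶ X)} (ha : Action X G a) (g : G)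
    (z : T.CH.R X) : T.CH.pull (a g) z = T.CH.push (a g⁻¹) z := by
  have e1 : a g⁻¹ ≫ a g = 𝟙 X := by rw [← ha.mul, mul_inv_cancel, ha.one]
  have e2 : a g ≫ a g⁻¹ = 𝟙 X := by rw [← ha.mul, inv_mul_cancel, ha.one]
  exact (T.CH.push_iso (⟨a g⁻¹, a g, e1, e2⟩ : X ≅ X) z).symm

theorem equivariant_of_q1Odd (hG : GodeauxSerre T) (h : Q1Odd T) : Equivariant T := by
  intro X G _ _ a ha m hinv z hz hzinv
  obtain ⟨⟨W, Y, b, q, p, s, hb1, hbm, hbp, hsp, hdim, hdim', hqq⟩, hY⟩ := hG X G a ha m hinv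
  dsimp only at hY
  have hb : Action W G b := ⟨hb1, hbm⟩
  have h1 : T.CH.push q (T.CH.push s z) = 0 := by
    refine h Y _ hY _ (T.homTrivial_congr (T.homTrivial_push q (T.homTrivial_push s hz)) ?_)
    rw [hdim]; ring
  have h2 := hqq (T.CH.push s z)
  rw [h1, map_zero] at h2
  have h3 : ∀ g, T.CH.push p (T.CH.pull (b g) (T.CH.push s z)) = z := by
    intro g
    rw [push_inv hb, ← T.CH.push_comp (b g⁻¹) p, hbp, T.CH.push_comp, ← T.CH.push_comp s p, hsp,
      T.CH.push_id, ← push_inv ha, hzinv]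
  have h4 : (Fintype.card G : ℚ) • z = 0 := by
    have h5 := congrArg (T.CH.push p) h2
    rw [map_zero, map_sum, Finset.sum_congr rfl fun g _ => h3 g, Finset.sum_const,
      Finset.card_univ] at h5
    rw [Nat.cast_smul_eq_nsmul]
    exact h5.symm
  exact (smul_eq_zero.1 h4).resolve_left (by exact_mod_cast Fintype.card_ne_zero)

theorem parityMinus_of_equivariant (h : Equivariant T) : ParityMinus T := by
  intro X i hi m z hz
  change T.CH.pull i z = -z
  let a : Multiplicative (ZMod 2) → (X ⟶ X) := fun g => if g = 1 then 𝟙 X else i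
  have ha : Action X (Multiplicative (ZMod 2)) a := by
    refine ⟨by simp [a], ?_⟩
    intro g g'
    have h2 : ∀ t : Multiplicative (ZMod 2), t = 1 ∨ t = Multiplicative.ofAdd 1 := by decide
    have h3 : (Multiplicative.ofAdd (1 : ZMod 2)) ≠ 1 := by decide
    have h4 : (Multiplicative.ofAdd (1 : ZMod 2)) * Multiplicative.ofAdd (1 : ZMod 2) = 1 := by
      decide
    rcases h2 g with rfl | rfl <;> rcases h2 g' with rfl | rfl
    · simp [a]
    · simp [a, h3]
    · simp [a, h3]
    · rw [h4]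
      simp only [a, if_true, h3, if_false]
      exact hi.sq.symm
  have hai : a (Multiplicative.ofAdd 1) = i := by
    have h3 : (Multiplicative.ofAdd (1 : ZMod 2)) ≠ 1 := by decide
    simp only [a, h3, if_false]
  have hinv : InvVanish T X a m := by
    intro j hj _ x hx hx'
    have h1 := hx' (Multiplicative.ofAdd 1)
    rw [hai, hi.odd j hj x hx] at h1
    have h2 : (2 : ℚ) • x = 0 := by
      rw [two_smul]
      nth_rewrite 1 [← h1]
      simp
    exact (smul_eq_zero.1 h2).resolve_left (by norm_num)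
  have hmem : T.HomTrivial X m (z + T.CH.pull i z) := by
    have h1 := T.homTrivial_pull i hz
    exact ⟨Submodule.add_mem _ hz.1 h1.1, by rw [map_add, hz.2, h1.2, add_zero]⟩
  have h5 := h X (Multiplicative (ZMod 2)) a ha m hinv (z + T.CH.pull i z) hmem (by
    intro g
    have h2 : ∀ t : Multiplicative (ZMod 2), t = 1 ∨ t = Multiplicative.ofAdd 1 := by decide
    rcases h2 g with rfl | rfl
    · rw [ha.one, T.CH.pull_id]
    · rw [hai, map_add, ← T.CH.pull_comp, hi.sq, T.CH.pull_id, add_comm])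
  exact eq_neg_of_add_eq_zero_right h5

theorem evenCase_of_parityMinus (h : ParityMinus T) : EvenCase T := by
  intro X hX m z hz
  have hp : Parity T X (𝟙 X) := by
    refine ⟨by simp, fun j _ x _ => T.H.pull_id x, fun j hj x hx => ?_⟩
    rw [hX j hj, Submodule.mem_bot] at hx
    rw [hx]
    simp
  have h1 := h X (𝟙 X) hp m z hz
  change T.CH.pull (𝟙 X) z = -z at h1
  rw [T.CH.pull_id] at h1
  have h2 : (2 : ℚ) • z = 0 := by
    rw [two_smul]
    nth_rewrite 1 [h1]
    simp
  exact (smul_eq_zero.1 h2).resolve_left (by norm_num)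

theorem tfae (hH : HardLefschetz T) (hL : LefschetzBertini T) (hG : GodeauxSerre T) :
    [Q1 T, Q1Odd T, EvenCase T, EvenMiddle T, Equivariant T, ParityMinus T].TFAE := by
  tfae_have 1 → 4 := evenMiddle_of_q1
  tfae_have 4 → 2 := q1Odd_of_evenMiddle hL
  tfae_have 2 → 1 := q1_of_q1Odd hH
  tfae_have 2 → 3 := evenCase_of_q1Odd
  tfae_have 3 → 4 := evenMiddle_of_evenCase
  tfae_have 2 → 5 := equivariant_of_q1Odd hG
  tfae_have 5 → 6 := parityMinus_of_equivariant
  tfae_have 6 → 3 := evenCase_of_parityMinus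
  tfae_finish

/-! ## Consequences -/

theorem parity_tensor {X Y : V} {i : X ⟶ X} {i' : Y ⟶ Y} (hi : Parity T X i)
    (hi' : Parity T Y i') : Parity T (X ⊗ Y) (i ⊗ₘ i') := by
  have key : ∀ (x : T.H.R X) (y : T.H.R Y),
      T.H.pull (i ⊗ₘ i') (T.H.pull (fst X Y) x * T.H.pull (snd X Y) y) =
        T.H.pull (fst X Y) (T.H.pull i x) * T.H.pull (snd X Y) (T.H.pull i' y) := by
    intro x y
    rw [map_mul, ← T.H.pull_comp, ← T.H.pull_comp, tensorHom_fst, tensorHom_snd, T.H.pull_comp,
      T.H.pull_comp]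
  have ext : ∀ (ε : ℚ) (j : ℤ), (∀ (a b : ℤ) (x : T.H.R X) (y : T.H.R Y), a + b = j →
      x ∈ T.H.gr X a → y ∈ T.H.gr Y b → T.H.pull (fst X Y) (T.H.pull i x) *
        T.H.pull (snd X Y) (T.H.pull i' y) =
        ε • (T.H.pull (fst X Y) x * T.H.pull (snd X Y) y)) →
      ∀ x ∈ T.H.gr (X ⊗ Y) j, T.H.pull (i ⊗ₘ i') x = ε • x := by
    intro ε j h x hx
    have h1 : T.H.gr (X ⊗ Y) j ≤
        LinearMap.ker ((T.H.pull (i ⊗ₘ i')).toLinearMap - ε • LinearMap.id) := by
      refine (T.kunneth X Y j).trans (Submodule.span_le.2 ?_)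
      rintro _ ⟨a, b, x, y, hab, hxa, hyb, rfl⟩
      rw [SetLike.mem_coe, LinearMap.mem_ker, LinearMap.sub_apply, LinearMap.smul_apply,
        LinearMap.id_apply, AlgHom.toLinearMap_apply, key, h a b x y hab hxa hyb, sub_self]
    have h2 := h1 hx
    rw [LinearMap.mem_ker, LinearMap.sub_apply, LinearMap.smul_apply, LinearMap.id_apply,
      AlgHom.toLinearMap_apply, sub_eq_zero] at h2
    exact h2
  refine ⟨by rw [tensorHom_comp_tensorHom, hi.sq, hi'.sq]; simp, ?_, ?_⟩
  · intro j hj x hx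
    refine (ext 1 j ?_ x hx).trans (one_smul _ _)
    intro a b x y hab hxa hyb
    rw [one_smul]
    rcases Int.even_or_odd a with ha | ha
    · have hb : Even b := by
        rw [← hab] at hj
        exact (Int.even_add.mp hj).mp ha
      rw [hi.even a ha x hxa, hi'.even b hb y hyb]
    · have hb : Odd b := by
        rw [← Int.not_even_iff_odd] at ha ⊢
        rw [← hab] at hj
        exact fun h => ha ((Int.even_add.mp hj).mpr h)
      rw [hi.odd a ha x hxa, hi'.odd b hb y hyb, map_neg, map_neg, neg_mul_neg]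
  · intro j hj x hx
    refine (ext (-1) j ?_ x hx).trans (neg_one_smul _ _)
    intro a b x y hab hxa hyb
    rw [neg_one_smul]
    rw [← Int.not_even_iff_odd, ← hab, Int.even_add] at hj
    rcases Int.even_or_odd a with ha | ha
    · have hb : Odd b := by
        rw [← Int.not_even_iff_odd]
        exact fun h => hj ⟨fun _ => h, fun _ => ha⟩
      rw [hi.even a ha x hxa, hi'.odd b hb y hyb, map_neg, mul_neg]
    · have hb : Even b := by
        rw [← Int.not_even_iff_odd] at ha
        by_contra h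
        exact hj ⟨fun h' => absurd h' ha, fun h' => absurd h' h⟩
      rw [hi.odd a ha x hxa, hi'.even b hb y hyb, map_neg, neg_mul]

theorem two_smul_zero {M : Type*} [AddCommGroup M] [Module ℚ M] {x : M} (h : x = -x) : x = 0 := by
  have h2 : (2 : ℚ) • x = 0 := by
    rw [two_smul]
    nth_rewrite 1 [h]
    simp
  exact (smul_eq_zero.1 h2).resolve_left (by norm_num)

/-- products of homologically trivial cycles on a variety with a parity involution are zero -/
theorem mul_eq_zero (h : ParityMinus T) {X : V} {i : X ⟶ X} (hi : Parity T X i) {a b : ℤ}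
    {z z' : T.CH.R X} (hz : T.HomTrivial X a z) (hz' : T.HomTrivial X b z') : z * z' = 0 := by
  have h1 : T.CH.pull i z = -z := h X i hi a z hz
  have h2 : T.CH.pull i z' = -z' := h X i hi b z' hz'
  have h3 : T.HomTrivial X (a + b) (z * z') :=
    ⟨T.CH.mul_mem hz.1 hz'.1, by rw [map_mul, hz.2, zero_mul]⟩
  have h4 : T.CH.pull i (z * z') = -(z * z') := h X i hi _ _ h3
  rw [map_mul, h1, h2, neg_mul_neg] at h4
  exact two_smul_zero h4

theorem act_eq_zero (h : ParityMinus T) {X Y : V} {i : X ⟶ X} {i' : Y ⟶ Y} (hi : Parity T X i)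
    (hi' : Parity T Y i') {r m : ℤ} {c : T.CH.R (X ⊗ Y)} {z : T.CH.R X}
    (hc : T.HomTrivial (X ⊗ Y) r c) (hz : T.HomTrivial X m z) : T.CH.act c z = 0 := by
  unfold RingData.act
  rw [mul_eq_zero h (parity_tensor hi hi') (T.homTrivial_pull (fst X Y) hz) hc, map_zero]

theorem id_act {X : V} {I : Type} [Fintype I] {P : I → V} {a : ∀ i, T.CH.R (X ⊗ P i)}
    {b : ∀ i, T.CH.R (P i ⊗ X)} (hab : ∑ i, T.CH.comp (a i) (b i) = T.CH.diag X) (x : T.CH.R X) :
    ∑ i, T.CH.act (b i) (T.CH.act (a i) x) = x := by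
  have h := T.CH.act_diag x
  rw [← hab, RingData.sum_act] at h
  rw [← Finset.sum_congr rfl fun i _ => T.CH.act_comp (a i) (b i) x]
  exact h

theorem correspondencesVanish (h : ParityMinus T) : CorrespondencesVanish T := by
  classical
  intro X Y hX hY r m c z hc hz
  obtain ⟨I, _, P, ι, n, a, b, hP, ha, hb, hab⟩ := hX
  obtain ⟨J, _, P', ι', n', a', b', hP', ha', hb', hab'⟩ := hY
  rw [← id_act hab' (T.CH.act c z), ← id_act hab z]
  refine Finset.sum_eq_zero fun j _ => ?_
  rw [RingData.act_sum, RingData.act_sum, RingData.act_sum]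
  refine Finset.sum_eq_zero fun i _ => ?_
  have h2 : T.CH.act (T.CH.comp (T.CH.comp (b i) c) (a' j)) (T.CH.act (a i) z) = 0 := by
    refine act_eq_zero h (hP i) (hP' j) (r := _) (m := _)
      ⟨T.comp_mem (T.comp_mem (hb i) hc.1) (ha' j), ?_⟩ (T.homTrivial_act (ha i) hz)
    rw [T.cl_comp, T.cl_comp, hc.2, RingData.comp_zero, RingData.zero_comp]
  rw [RingData.act_comp, RingData.act_comp] at h2
  rw [h2, RingData.act_zero]

theorem productsVanish (h : CorrespondencesVanish T) : ProductsVanish T := by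
  intro X hX a b z z' hz hz'
  rw [← RingData.act_push_diag]
  exact h X X hX hX _ a _ z (T.homTrivial_push (lift (𝟙 X) (𝟙 X)) hz') hz

end Pool.Agent.Lib.MP_32dfd1_ag.Par
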