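import Mathlib
import Pool.Agent.Lib.MP_32dfd1_ag.Par.Main

set_option autoImplicit false
set_option linter.unusedSectionVars false

/-!
# Q1 for all pairs `(X, m)`
-/

namespace Pool.Agent.Lib.MP_32dfd1_ag.Par

open CategoryTheory MonoidalCategory CartesianMonoidalCategory Pool.Agent.Lib.MP_32dfd1_ag.Cyc

universe u v w

section Defs

variable {V : Type u} [Category.{v} V]

/-- Question Q1 for all `(X, m)`: if `H^(2m-1)(X, ℚ) = 0` then every homologically trivial cycle
class of codimension `m` on `X` is zero in `CH^m(X) ⊗ ℚ`. -/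
def Q1Full (T : CycleData.{u, v, w} V) : Prop :=
  ∀ (X : V) (m : ℤ), 1 ≤ m → T.H.gr X (2 * m - 1) = ⊥ → ∀ z, T.HomTrivial X m z → z = 0

/-- Lefschetz theorem and Bertini theorem for the smooth complete intersections
`i : Y ⟶ X` of dimension `2m ≤ dim X`, given by the predicate `Sec`: they exist, and
`H^j(Y) = H^j(X)` for `j < dim Y`; only the vanishing of `H^j(Y)` is recorded. -/
structure Sections (T : CycleData.{u, v, w} V) (Sec : (Y X : V) → (Y ⟶ X) → Prop) : Prop where
  exist : ∀ (X : V) (m : ℤ), 1 ≤ m → 2 * m ≤ T.dim X → ∃ (Y : V) (i : Y ⟶ X),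
    Sec Y X i ∧ T.dim Y = 2 * m
  vanish : ∀ (X Y : V) (i : Y ⟶ X), Sec Y X i → ∀ j : ℤ, j < T.dim Y → T.H.gr X j = ⊥ →
    T.H.gr Y j = ⊥

/-- If `H^(2m-1)(X) = 0`, then restriction to smooth complete intersections `Y` of dimension `2m` in
`X` is injective on homologically trivial cycle classes of codimension `m`. -/
def RestrictionInjective (T : CycleData.{u, v, w} V) (Sec : (Y X : V) → (Y ⟶ X) → Prop) : Prop :=
  ∀ (X Y : V) (i : Y ⟶ X) (m : ℤ), Sec Y X i → T.dim Y = 2 * m → T.H.gr X (2 * m - 1) = ⊥ →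
    ∀ z, T.HomTrivial X m z → T.CH.pull' i z = 0 → z = 0

end Defs

variable {V : Type u} [Category.{v} V] [CartesianMonoidalCategory V]
  {T : CycleData.{u, v, w} V} [T.Textbook]

/-- below the middle dimension vanishing in degree `j` implies vanishing in degree `j - 2` -/
theorem odd_down (hH : HardLefschetz T) {X : V} {j : ℤ} (hj : j ≤ T.dim X + 1)
    (h : T.H.gr X j = ⊥) (k : ℕ) : T.H.gr X (j - 2 * k) = ⊥ := by
  have h1 := T.duality X j h
  have h2 := odd_step hH (X := X) (j := 2 * T.dim X - j) (by omega) h1 k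
  have h3 := T.duality X _ h2
  rwa [show 2 * T.dim X - (2 * T.dim X - j + 2 * (k : ℤ)) = j - 2 * k by ring] at h3

theorem full_iff (hH : HardLefschetz T) (hL : LefschetzBertini T) (hG : GodeauxSerre T)
    {Sec : (Y X : V) → (Y ⟶ X) → Prop} (hS : Sections T Sec) :
    Q1Full T ↔ EvenCase T ∧ RestrictionInjective T Sec := by
  constructor
  · intro h
    refine ⟨fun X hX m z hz => ?_, fun X Y i m _ hd hm z hz _ => ?_⟩
    · by_cases hm : 1 ≤ m
      · exact h X m hm (hX _ ⟨m - 1, by ring⟩) z hz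
      · exact T.homTrivial_eq_zero (by omega) hz
    · by_cases h1 : 1 ≤ m
      · exact h X m h1 hm z hz
      · exact T.homTrivial_eq_zero (by omega) hz
  · rintro ⟨hE, hR⟩ X m hm1 hm z hz
    by_cases hd : T.dim X < 2 * m
    · have hQ : Q1 T := ((tfae hH hL hG).out 0 2).mpr hE
      exact hQ X m hm1 hd hm z hz
    · push Not at hd
      obtain ⟨Y, i, hi, hY⟩ := hS.exist X m hm1 hd
      have hno : NoOdd T Y := by
        have hlow : ∀ j : ℤ, Odd j → j < 2 * m → T.H.gr Y j = ⊥ := by
          intro j hj hjm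
          refine hS.vanish X Y i hi j (by omega) ?_
          obtain ⟨c, hc⟩ := hj
          obtain ⟨k, hk⟩ : ∃ k : ℕ, (k : ℤ) = m - 1 - c := ⟨(m - 1 - c).toNat, by omega⟩
          have := odd_down hH (X := X) (j := 2 * m - 1) (by omega) hm k
          rwa [show 2 * m - 1 - 2 * (k : ℤ) = j by omega] at this
        intro j hj
        by_cases hjm : j < 2 * m
        · exact hlow j hj hjm
        · obtain ⟨c, hc⟩ := hj
          have h2 := hlow (2 * T.dim Y - j) ⟨T.dim Y - c - 1, by omega⟩ (by omega)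
          have h3 := T.duality Y _ h2
          rwa [sub_sub_cancel] at h3
      exact hR X Y i m hi hY hm z hz (hE Y hno m _ (T.homTrivial_pull i hz))

end Pool.Agent.Lib.MP_32dfd1_ag.Par
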